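import Pool.Agent.Q237.PX.AFM
import Pool.Agent.Q284.PX.Stm3

/-! Project PX3 of helper284: job CONV. -/

set_option autoImplicit false

open Finset Polynomial ComplexConjugate
open Pool.Agent.H341R2.Sharp (Mon mem_Mon)

namespace Pool.Agent.Q137.PX

open Pool.Agent.Q284.PS Pool.Agent.Q284.PX UniqueFactorizationMonoid
open Pool.Agent.Q277.PS (nf_mem pow_dvd_iff_count mem_nf_iff mirr_eq nf_prod)

section gen

variable {F : Type} [Field F]

open Classical in
/-- the multiplicity -/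
noncomputable def cnt (f P : F[X]) : ℕ := (normalizedFactors f).count P

open Classical in
lemma nf_one_lt (s : Finset F[X]) (hs : ∀ P ∈ s, P.Monic ∧ Irreducible P) (φ : F[X] → ℕ) :
    (∏ P ∈ s, P ^ φ P).Monic ∧ ∀ Q : F[X], cnt (∏ P ∈ s, P ^ φ P) Q = if Q ∈ s then φ Q else 0 := by
  induction s using Finset.induction_on with
  | empty =>
      rw [prod_empty]
      refine ⟨monic_one, fun Q => ?_⟩
      unfold cnt
      rw [normalizedFactors_one]
      simp
  | insert P s hP ih =>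
      obtain ⟨h1, h2⟩ := ih fun Q hQ => hs Q (mem_insert_of_mem hQ)
      obtain ⟨hm, hI⟩ := hs P (mem_insert_self P s)
      rw [prod_insert hP]
      refine ⟨(hm.pow _).mul h1, fun Q => ?_⟩
      unfold cnt at h2 ⊢
      rw [normalizedFactors_mul (hm.pow _).ne_zero h1.ne_zero, normalizedFactors_pow,
        normalizedFactors_irreducible hI, hm.normalize_eq_self, Multiset.count_add,
        Multiset.count_nsmul, Multiset.count_singleton, h2 Q]
      by_cases hQP : Q = P
      · subst hQP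
        rw [if_pos rfl, if_neg hP, if_pos (mem_insert_self Q s)]
        ring
      · rw [if_neg hQP, mul_zero, zero_add]
        by_cases hQs : Q ∈ s
        · rw [if_pos hQs, if_pos (mem_insert_of_mem hQs)]
        · rw [if_neg hQs, if_neg]
          rw [mem_insert]
          push Not
          exact ⟨hQP, hQs⟩

open Classical in
lemma cnt_mul {f g : F[X]} (hf : f ≠ 0) (hg : g ≠ 0) (P : F[X]) :
    cnt (f * g) P = cnt f P + cnt g P := by
  unfold cnt
  rw [normalizedFactors_mul hf hg, Multiset.count_add]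

open Classical in
/-- a monic polynomial is the product over any set containing its primes -/
lemma prod_cnt {g : F[X]} (hg : g.Monic) {s : Finset F[X]}
    (hs : (normalizedFactors g).toFinset ⊆ s) : ∏ P ∈ s, P ^ cnt g P = g := by
  conv_rhs => rw [← nf_prod hg, Finset.prod_multiset_count]
  symm
  apply prod_subset hs
  intro P _ hP
  rw [Multiset.mem_toFinset] at hP
  rw [Multiset.count_eq_zero_of_notMem hP, pow_zero]

open Classical in
lemma AF_set (v : F[X] → ℕ → ℝ) (hv : ∀ P : F[X], v P 0 = 1) {g : F[X]} {s : Finset F[X]}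
    (hs : (normalizedFactors g).toFinset ⊆ s) : AF v g = ∏ P ∈ s, v P (cnt g P) := by
  unfold AF
  apply prod_subset hs
  intro P _ hP
  rw [Multiset.mem_toFinset] at hP
  rw [Multiset.count_eq_zero_of_notMem hP, hv]

variable [Fintype F]

variable (F) in
open Classical in
/-- the monic divisors of degree at most `n` -/
noncomputable def Dv (n : ℕ) (f : F[X]) : Finset F[X] :=
  ((range (n + 1)).biUnion (Mon F)).filter (fun g => g ∣ f)

lemma mem_Dv {n : ℕ} {f g : F[X]} : g ∈ Dv F n f ↔ g.Monic ∧ g.natDegree ≤ n ∧ g ∣ f := by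
  classical
  unfold Dv
  rw [mem_filter, mem_biUnion]
  constructor
  · rintro ⟨⟨u, hu, hg⟩, h⟩
    rw [mem_Mon] at hg
    rw [mem_range] at hu
    exact ⟨hg.1, by omega, h⟩
  · rintro ⟨h1, h2, h3⟩
    exact ⟨⟨g.natDegree, mem_range.2 (by omega), mem_Mon.2 ⟨h1, rfl⟩⟩, h3⟩

lemma div_facts {f g : F[X]} (hf : f.Monic) (hg : g.Monic) (h : g ∣ f) :
    f = g * (f /ₘ g) ∧ (f /ₘ g).Monic := by
  have heq : f = g * (f /ₘ g) := by
    have h4 := modByMonic_add_div f g
    rw [(modByMonic_eq_zero_iff_dvd hg).2 h, zero_add] at h4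
    exact h4.symm
  refine ⟨heq, hg.of_mul_monic_left ?_⟩
  rw [← heq]
  exact hf

open Classical in
/-- the sum over the divisors -/
theorem AF_conv (v l w : F[X] → ℕ → ℝ) (hv : ∀ P : F[X], v P 0 = 1) (hl : ∀ P : F[X], l P 0 = 1)
    (hw : ∀ P : F[X], w P 0 = 1)
    (hc : ∀ (P : F[X]) (k : ℕ), v P k = ∑ i ∈ range (k + 1), w P i * l P (k - i)) {n : ℕ}
    {f : F[X]} (hf : f ∈ Mon F n) : AF v f = ∑ g ∈ Dv F n f, AF w g * AF l (f /ₘ g) := by
  rw [mem_Mon] at hf
  obtain ⟨hfm, hfn⟩ := hf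
  obtain ⟨s, hs⟩ : ∃ s, s = (normalizedFactors f).toFinset := ⟨_, rfl⟩
  have hsm : ∀ P ∈ s, P.Monic ∧ Irreducible P := by
    intro P hP
    rw [hs, Multiset.mem_toFinset] at hP
    exact nf_mem hP
  have hle : ∀ g : F[X], g.Monic → g ∣ f → (∀ P, cnt g P ≤ cnt f P) ∧
      (normalizedFactors g).toFinset ⊆ s ∧ (normalizedFactors (f /ₘ g)).toFinset ⊆ s ∧
      ∀ P, cnt (f /ₘ g) P = cnt f P - cnt g P := by
    intro g hg hgf
    obtain ⟨h1, h2⟩ := div_facts hfm hg hgf
    have h3 : ∀ P, cnt f P = cnt g P + cnt (f /ₘ g) P := by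
      intro P
      conv_lhs => rw [h1]
      exact cnt_mul hg.ne_zero h2.ne_zero P
    have h4 : normalizedFactors f = normalizedFactors g + normalizedFactors (f /ₘ g) := by
      conv_lhs => rw [h1]
      exact normalizedFactors_mul hg.ne_zero h2.ne_zero
    refine ⟨fun P => by rw [h3 P]; exact Nat.le_add_right _ _, ?_, ?_, fun P => by
      rw [h3 P]; exact (Nat.add_sub_cancel_left ..).symm⟩
    · rw [hs, h4]
      intro P hP
      rw [Multiset.mem_toFinset] at hP ⊢
      exact Multiset.mem_add.2 (Or.inl hP)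
    · rw [hs, h4]
      intro P hP
      rw [Multiset.mem_toFinset] at hP ⊢
      exact Multiset.mem_add.2 (Or.inr hP)
  have hL : AF v f = ∏ P ∈ s, ∑ i ∈ range (cnt f P + 1), w P i * l P (cnt f P - i) := by
    rw [AF_set v hv (s := s) (by rw [hs])]
    exact prod_congr rfl fun P _ => hc P _
  have hR : ∑ g ∈ Dv F n f, AF w g * AF l (f /ₘ g) =
      ∑ g ∈ Dv F n f, ∏ P ∈ s, (w P (cnt g P) * l P (cnt f P - cnt g P)) := by
    apply sum_congr rfl
    intro g hg
    rw [mem_Dv] at hg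
    obtain ⟨-, h2, h3, h4⟩ := hle g hg.1 hg.2.2
    rw [AF_set w hw h2, AF_set l hl h3, prod_mul_distrib]
    congr 1
    exact prod_congr rfl fun P _ => by rw [h4 P]
  rw [hL, hR, prod_sum]
  symm
  apply sum_bij' (i := fun g _ => fun (P : F[X]) (_ : P ∈ s) => cnt g P)
    (j := fun p _ => ∏ P ∈ s, P ^ (if h : P ∈ s then p P h else 0))
  · intro g hg
    rw [mem_Dv] at hg
    rw [Finset.mem_pi]
    intro P hP
    rw [mem_range]
    have := (hle g hg.1 hg.2.2).1 P
    omega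
  · intro p hp
    rw [Finset.mem_pi] at hp
    obtain ⟨h1, h2⟩ := nf_one_lt s hsm (fun P => if h : P ∈ s then p P h else 0)
    have h3 : (∏ P ∈ s, P ^ (if h : P ∈ s then p P h else 0)) ∣ f := by
      conv_rhs => rw [← prod_cnt hfm (s := s) (by rw [hs])]
      apply Finset.prod_dvd_prod_of_dvd
      intro P hP
      apply pow_dvd_pow
      rw [dif_pos hP]
      have := hp P hP
      rw [mem_range] at this
      omega
    rw [mem_Dv]
    refine ⟨h1, ?_, h3⟩
    rw [← hfn]
    exact natDegree_le_of_dvd h3 hfm.ne_zero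
  · intro g hg
    rw [mem_Dv] at hg
    obtain ⟨-, h2, -, -⟩ := hle g hg.1 hg.2.2
    simp only
    conv_rhs => rw [← prod_cnt hg.1 h2]
    apply prod_congr rfl
    intro P hP
    rw [dif_pos hP]
  · intro p hp
    obtain ⟨h1, h2⟩ := nf_one_lt s hsm (fun P => if h : P ∈ s then p P h else 0)
    funext P hP
    rw [h2 P, if_pos hP, dif_pos hP]
  · intro g hg
    rw [← prod_attach]

/-- exchange of the summations -/
lemma sum_pairs {E : Type} [AddCommMonoid E] (A : F[X] → F[X] → E) (n : ℕ) :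
    ∑ f ∈ Mon F n, ∑ g ∈ Dv F n f, A g (f /ₘ g) =
      ∑ u ∈ range (n + 1), ∑ g ∈ Mon F u, ∑ h ∈ Mon F (n - u), A g h := by
  rw [sum_sigma', sum_sigma']
  simp_rw [sum_sigma']
  apply sum_bij' (i := fun (x : Σ _ : F[X], F[X]) _ =>
      (⟨⟨x.2.natDegree, x.2⟩, x.1 /ₘ x.2⟩ : Σ _ : (Σ _ : ℕ, F[X]), F[X]))
    (j := fun (y : Σ _ : (Σ _ : ℕ, F[X]), F[X]) _ => (⟨y.1.2 * y.2, y.1.2⟩ : Σ _ : F[X], F[X]))
  · rintro ⟨f, g⟩ hx
    rw [mem_sigma, mem_Mon, mem_Dv] at hx
    obtain ⟨⟨h1, h2⟩, h3, h4, h5⟩ := hx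
    simp only at h1 h2 h3 h4 h5
    obtain ⟨e1, e2⟩ := div_facts h1 h3 h5
    simp only [mem_sigma, mem_range, mem_Mon]
    refine ⟨⟨by omega, h3, trivial⟩, e2, ?_⟩
    have : f.natDegree = g.natDegree + (f /ₘ g).natDegree := by
      conv_lhs => rw [e1]
      exact h3.natDegree_mul e2
    omega
  · rintro ⟨⟨u, g⟩, h⟩ hx
    simp only [mem_sigma, mem_range, mem_Mon] at hx
    obtain ⟨⟨h1, h2, h3⟩, h4, h5⟩ := hx
    simp only [mem_sigma, mem_Mon, mem_Dv]
    refine ⟨⟨h2.mul h4, ?_⟩, h2, by omega, dvd_mul_right _ _⟩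
    rw [h2.natDegree_mul h4]
    omega
  · rintro ⟨f, g⟩ hx
    rw [mem_sigma, mem_Mon, mem_Dv] at hx
    obtain ⟨⟨h1, h2⟩, h3, h4, h5⟩ := hx
    simp only at h1 h2 h3 h4 h5
    obtain ⟨e1, e2⟩ := div_facts h1 h3 h5
    simp only
    rw [← e1]
  · rintro ⟨⟨u, g⟩, h⟩ hx
    simp only [mem_sigma, mem_range, mem_Mon] at hx
    obtain ⟨⟨h1, h2, h3⟩, h4, h5⟩ := hx
    simp only
    rw [mul_divByMonic_cancel_left h h2, h3]
  · rintro ⟨f, g⟩ hx
    rfl

end gen

theorem t_CONV : S_CONV := by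
  intro F _ _ v l w hv hl hw hc n
  refine ⟨fun χ hχ => ?_, ?_⟩
  · unfold ef
    have h1 : ∑ f ∈ Mon F n, (AF v f : ℂ) * χ f =
        ∑ f ∈ Mon F n, ∑ g ∈ Dv F n f,
          (fun g h => ((AF w g : ℂ) * χ g) * ((AF l h : ℂ) * χ h)) g (f /ₘ g) := by
      apply sum_congr rfl
      intro f hf
      rw [AF_conv v l w hv hl hw hc hf]
      push_cast
      rw [sum_mul]
      apply sum_congr rfl
      intro g hg
      rw [mem_Dv] at hg
      rw [mem_Mon] at hf
      obtain ⟨e1, e2⟩ := div_facts hf.1 hg.1 hg.2.2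
      have e3 : χ f = χ g * χ (f /ₘ g) := by
        conv_lhs => rw [e1]
        exact hχ.2 _ _ hg.1 e2
      rw [e3]
      ring
    rw [h1, sum_pairs (fun g h => ((AF w g : ℂ) * χ g) * ((AF l h : ℂ) * χ h)) n]
    apply sum_congr rfl
    intro u _
    rw [sum_mul_sum]
  · calc ∑ f ∈ Mon F n, |AF v f| ≤
          ∑ f ∈ Mon F n, ∑ g ∈ Dv F n f, (fun g h => |AF w g| * |AF l h|) g (f /ₘ g) := by
          apply sum_le_sum
          intro f hf
          rw [AF_conv v l w hv hl hw hc hf]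
          refine (abs_sum_le_sum_abs _ _).trans (sum_le_sum fun g _ => ?_)
          rw [abs_mul]
      _ = ∑ u ∈ range (n + 1), ∑ g ∈ Mon F u, ∑ h ∈ Mon F (n - u), |AF w g| * |AF l h| :=
          sum_pairs (fun g h => |AF w g| * |AF l h|) n
      _ = _ := by
          apply sum_congr rfl
          intro u _
          rw [sum_mul_sum]

end Pool.Agent.Q137.PX
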