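import Pool.Agent.Q284.PX.Stm3

/-! Project PX3 of helper284: numerical tools for NG and NE. -/

set_option autoImplicit false

open Finset Polynomial ComplexConjugate

namespace Pool.Agent.Q137.PX

open Pool.Agent.Q284.PS (BB)
open Pool.Agent.Q284.PX

lemma w2_nn {q : ℝ} (hq : 0 < q) (d n : ℕ) : 0 ≤ w2 q d n := by
  unfold w2
  positivity

/-- the shift -/
lemma w2sh {q : ℝ} (hq : 0 < q) {d i u : ℕ} (hi : 1 ≤ i) (c : ℝ) :
    q ^ ((1 - c) * u) * w2 q d i = w2 q d (i + u) *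
      (q ^ (-((c - 5 / (2 * (d:ℝ))) * u)) * (((i + u : ℕ) : ℝ) / i) ^ ((5:ℝ) / 2)) := by
  unfold w2
  have hip : (0:ℝ) < i := by exact_mod_cast hi
  have hip2 : (0:ℝ) < ((i + u : ℕ) : ℝ) := by positivity
  rw [Real.div_rpow hip2.le hip.le]
  have e : q ^ ((1 - 5 / (2 * (d:ℝ))) * ((i + u : ℕ) : ℝ)) * q ^ (-((c - 5 / (2 * (d:ℝ))) * u)) =
      q ^ ((1 - c) * u) * q ^ ((1 - 5 / (2 * (d:ℝ))) * i) := by
    rw [← Real.rpow_add hq, ← Real.rpow_add hq]
    congr 1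
    push_cast
    ring
  have h1 : (0:ℝ) < ((i + u : ℕ) : ℝ) ^ ((5:ℝ) / 2) := by positivity
  have h2 : (0:ℝ) < (i : ℝ) ^ ((5:ℝ) / 2) := by positivity
  have e2 : q ^ ((1 - 5 / (2 * (d:ℝ))) * ((i + u : ℕ) : ℝ)) / ((i + u : ℕ) : ℝ) ^ ((5:ℝ) / 2) *
      (q ^ (-((c - 5 / (2 * (d:ℝ))) * u)) *
        (((i + u : ℕ) : ℝ) ^ ((5:ℝ) / 2) / (i : ℝ) ^ ((5:ℝ) / 2))) =
      (q ^ ((1 - 5 / (2 * (d:ℝ))) * ((i + u : ℕ) : ℝ)) * q ^ (-((c - 5 / (2 * (d:ℝ))) * u))) /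
        (i : ℝ) ^ ((5:ℝ) / 2) := by
    field_simp
  rw [e2, e, mul_div_assoc]

/-- the term `i = 0` -/
lemma w2ze {q : ℝ} (hq : 0 < q) {d n : ℕ} (hn : 1 ≤ n) (c : ℝ) :
    q ^ ((1 - c) * n) = w2 q d n *
      (q ^ (-((c - 5 / (2 * (d:ℝ))) * n)) * (n : ℝ) ^ ((5:ℝ) / 2)) := by
  unfold w2
  have hnp : (0:ℝ) < n := by exact_mod_cast hn
  have h1 : (0:ℝ) < (n : ℝ) ^ ((5:ℝ) / 2) := by positivity
  have e : q ^ ((1 - 5 / (2 * (d:ℝ))) * (n : ℝ)) * q ^ (-((c - 5 / (2 * (d:ℝ))) * n)) =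
      q ^ ((1 - c) * n) := by
    rw [← Real.rpow_add hq]
    congr 1
    ring
  rw [← e]
  field_simp

/-- powers of `q` against exponentials -/
lemma q_le_exp {q y : ℝ} (hq : 3 ≤ q) (hy : 0 ≤ y) : q ^ (-y) ≤ Real.exp (-y) := by
  have hqp : 0 < q := by linarith
  rw [Real.rpow_def_of_pos hqp]
  apply Real.exp_le_exp.2
  have h1 : 1 ≤ Real.log q := by
    rw [Real.le_log_iff_exp_le hqp]
    have := Real.exp_one_lt_d9
    linarith
  nlinarith

/-- the key bound -/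
lemma keyb {d K : ℕ} (hL : 4 ≤ Real.log d) (hK : 100 ≤ K) (hKd : K ≤ d) {q : ℝ} (hq : 3 ≤ q)
    {u : ℕ} (hu : K ≤ u) :
    (1 + (u:ℝ)) ^ ((5:ℝ) / 2) * q ^ (-(28 * Real.log d / K * u)) ≤
      8 * (Real.exp (-(20 * Real.log d)) * Real.exp (-(Real.log d / K * u))) := by
  have hKp : (0:ℝ) < K := by exact_mod_cast (by omega : 0 < K)
  have hK1 : (1:ℝ) ≤ K := by exact_mod_cast (by omega : 1 ≤ K)
  have hKd' : (K:ℝ) ≤ d := by exact_mod_cast hKd
  have hdp : (0:ℝ) < d := by linarith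
  obtain ⟨L, hLd⟩ : ∃ L, L = Real.log d := ⟨_, rfl⟩
  have hdL : (d:ℝ) = Real.exp L := by rw [hLd, Real.exp_log hdp]
  rw [← hLd] at hL ⊢
  obtain ⟨x, hx⟩ : ∃ x : ℝ, x = u / K := ⟨_, rfl⟩
  have hux : (u:ℝ) = K * x := by rw [hx]; field_simp
  have hx1 : 1 ≤ x := by
    rw [hx, le_div_iff₀ hKp, one_mul]
    exact_mod_cast hu
  have e1 : 28 * L / K * u = 28 * L * x := by rw [hux]; field_simp
  have e2 : L / K * u = L * x := by rw [hux]; field_simp
  rw [e1, e2]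
  have hu1 : (1:ℝ) ≤ u := by
    have : (K:ℝ) ≤ u := by exact_mod_cast hu
    linarith
  have h1 : (1 + (u:ℝ)) ^ ((5:ℝ) / 2) ≤ (1 + (u:ℝ)) ^ (3:ℕ) := by
    rw [← Real.rpow_natCast]
    apply Real.rpow_le_rpow_of_exponent_le (by linarith)
    norm_num
  have h2 : 1 + (u:ℝ) ≤ 2 * (Real.exp L * Real.exp x) := by
    have h3 : x ≤ Real.exp x := by
      have := Real.add_one_le_exp x
      linarith
    have h4 : (u:ℝ) ≤ d * x := by
      rw [hux]
      exact mul_le_mul_of_nonneg_right hKd' (by linarith)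
    have h5 : (d:ℝ) * x ≤ Real.exp L * Real.exp x := by
      rw [hdL]
      exact mul_le_mul_of_nonneg_left h3 (Real.exp_pos _).le
    linarith
  have h3 : (1 + (u:ℝ)) ^ (3:ℕ) ≤ 8 * (Real.exp (3 * L) * Real.exp (3 * x)) := by
    calc (1 + (u:ℝ)) ^ (3:ℕ) ≤ (2 * (Real.exp L * Real.exp x)) ^ (3:ℕ) :=
          pow_le_pow_left₀ (by linarith) h2 3
      _ = 8 * (Real.exp L ^ 3 * Real.exp x ^ 3) := by ring
      _ = _ := by
          rw [← Real.exp_nat_mul, ← Real.exp_nat_mul]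
          norm_num
  have h4 : q ^ (-(28 * L * x)) ≤ Real.exp (-(28 * L * x)) := q_le_exp hq (by positivity)
  calc (1 + (u:ℝ)) ^ ((5:ℝ) / 2) * q ^ (-(28 * L * x)) ≤
        (8 * (Real.exp (3 * L) * Real.exp (3 * x))) * Real.exp (-(28 * L * x)) := by
        apply mul_le_mul (h1.trans h3) h4
        · have : 0 < q := by linarith
          positivity
        · positivity
    _ = 8 * Real.exp (3 * L + 3 * x + -(28 * L * x)) := by
        rw [Real.exp_add, Real.exp_add]; ring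
    _ ≤ 8 * Real.exp (-(20 * L) + -(L * x)) := by
        apply mul_le_mul_of_nonneg_left _ (by norm_num)
        apply Real.exp_le_exp.2
        nlinarith
    _ = _ := by rw [Real.exp_add]

/-- geometric sum -/
lemma geos {d K : ℕ} (hL : 4 ≤ Real.log d) (hK : 100 ≤ K) (hKd : K ≤ d) (s : Finset ℕ) (n : ℕ)
    (hs : s ⊆ range (n + 1)) :
    ∑ u ∈ s, Real.exp (-(Real.log d / K * u)) ≤ 2 * d := by
  have hKp : (0:ℝ) < K := by exact_mod_cast (by omega : 0 < K)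
  have hK1 : (1:ℝ) ≤ K := by exact_mod_cast (by omega : 1 ≤ K)
  have hKd' : (K:ℝ) ≤ d := by exact_mod_cast hKd
  obtain ⟨t, ht⟩ : ∃ t, t = Real.log d / K := ⟨_, rfl⟩
  have htp : 0 < t := by rw [ht]; positivity
  have htK : 1 ≤ t * K := by rw [ht]; field_simp; linarith
  rw [← ht]
  have e : ∀ u : ℕ, Real.exp (-(t * u)) = Real.exp (-t) ^ u := by
    intro u
    rw [← Real.exp_nat_mul]
    congr 1
    ring
  have h1 : ∑ u ∈ s, Real.exp (-(t * u)) ≤ ∑ u ∈ range (n + 1), Real.exp (-t) ^ u := by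
    calc ∑ u ∈ s, Real.exp (-(t * u)) = ∑ u ∈ s, Real.exp (-t) ^ u := sum_congr rfl fun u _ => e u
      _ ≤ _ := sum_le_sum_of_subset_of_nonneg hs fun _ _ _ => by positivity
  refine h1.trans ?_
  have h2 := mul_neg_geom_sum (Real.exp (-t)) (n + 1)
  have h3 : Real.exp (-t) ≤ 1 / (1 + t) := by
    rw [Real.exp_neg, ← one_div]
    apply one_div_le_one_div_of_le (by linarith)
    have := Real.add_one_le_exp t
    linarith
  have h4 : t / (1 + t) ≤ 1 - Real.exp (-t) := by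
    have : t / (1 + t) = 1 - 1 / (1 + t) := by field_simp; ring
    rw [this]; linarith
  have h5 : 0 ≤ ∑ u ∈ range (n + 1), Real.exp (-t) ^ u := sum_nonneg fun _ _ => by positivity
  have h6 : t / (1 + t) * ∑ u ∈ range (n + 1), Real.exp (-t) ^ u ≤ 1 := by
    have h7 : 0 ≤ Real.exp (-t) ^ (n + 1) := by positivity
    calc _ ≤ (1 - Real.exp (-t)) * ∑ u ∈ range (n + 1), Real.exp (-t) ^ u :=
          mul_le_mul_of_nonneg_right h4 h5
      _ ≤ 1 := by rw [h2]; linarith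
  rw [div_mul_eq_mul_div, div_le_one (by linarith)] at h6
  -- `t * S ≤ 1 + t`
  have h8 : ∑ u ∈ range (n + 1), Real.exp (-t) ^ u ≤ (1 + t) * K := by
    have h9 : (t * ∑ u ∈ range (n + 1), Real.exp (-t) ^ u) * K ≤ (1 + t) * K :=
      mul_le_mul_of_nonneg_right h6 hKp.le
    nlinarith
  -- need a better bound for large `t`
  have h10 : ∑ u ∈ range (n + 1), Real.exp (-t) ^ u ≤ 1 + 1 / t := by
    rw [show 1 + 1 / t = (1 + t) / t by field_simp; ring, le_div_iff₀ htp]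
    linarith
  have h11 : 1 / t ≤ K := by
    rw [div_le_iff₀ htp]; linarith
  linarith

lemma tiny {d : ℕ} (hL : 4 ≤ Real.log d) (hd : 1 ≤ d) :
    819200 * 100 * (Real.exp (-(20 * Real.log d)) * (2 * d)) ≤ 1 := by
  have hdp : (0:ℝ) < d := by exact_mod_cast hd
  have hdL : (d:ℝ) = Real.exp (Real.log d) := (Real.exp_log hdp).symm
  obtain ⟨L, hLd⟩ : ∃ L, L = Real.log d := ⟨_, rfl⟩
  rw [← hLd] at hL hdL ⊢
  rw [hdL]
  have h1 : Real.exp (-(20 * L)) * (2 * Real.exp L) = 2 * Real.exp (-(19 * L)) := by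
    rw [mul_comm (2:ℝ), ← mul_assoc, ← Real.exp_add, mul_comm]
    congr 2
    ring
  rw [h1]
  have h2 : Real.exp (-(19 * L)) ≤ Real.exp (-(76:ℝ)) := Real.exp_le_exp.2 (by linarith)
  have h3 : Real.exp (-(76:ℝ)) ≤ 1 / 2 ^ 76 := by
    rw [Real.exp_neg, ← one_div]
    apply one_div_le_one_div_of_le (by positivity)
    have h4 : Real.exp 76 = Real.exp 1 ^ 76 := by
      rw [← Real.exp_nat_mul]; norm_num
    rw [h4]
    apply pow_le_pow_left₀ (by norm_num)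
    have := Real.exp_one_gt_d9
    linarith
  have h5 : (1:ℝ) / 2 ^ 76 ≤ 1 / 10 ^ 10 := by norm_num
  linarith

/-- the exponent -/
lemma expo {d K : ℕ} (hL : 4 ≤ Real.log d) (hK : 100 ≤ K) (hKd : K ≤ d) {q : ℝ} (hq : 3 ≤ q)
    {u : ℕ} : q ^ (-((30 * Real.log d / K - 5 / (2 * (d:ℝ))) * u)) ≤
      q ^ (-(29 * Real.log d / K * u)) := by
  have hKp : (0:ℝ) < K := by exact_mod_cast (by omega : 0 < K)
  have hKd' : (K:ℝ) ≤ d := by exact_mod_cast hKd
  have hdp : (0:ℝ) < d := by linarith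
  apply Real.rpow_le_rpow_of_exponent_le (by linarith)
  have h1 : 5 / (2 * (d:ℝ)) ≤ Real.log d / K := by
    rw [div_le_div_iff₀ (by positivity) hKp]
    nlinarith
  have h2 : (0:ℝ) ≤ u := Nat.cast_nonneg u
  have h3 : 29 * Real.log d / K ≤ 30 * Real.log d / K - 5 / (2 * (d:ℝ)) := by
    have : 30 * Real.log d / K = 29 * Real.log d / K + Real.log d / K := by ring
    linarith
  have := mul_le_mul_of_nonneg_right h3 h2
  linarith

end Pool.Agent.Q137.PX
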