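import Pool.Agent.Q137.PX.NG
import Pool.Agent.Q237.PX.AFM

/-! Project PX3 of helper284: job MW. -/

set_option autoImplicit false

open Finset Polynomial ComplexConjugate
open Pool.Agent.H341R2.Sharp (Mon mem_Mon)

namespace Pool.Agent.Q137.PX

open Pool.Agent.Q284.PS (BB PD PI NMul qq S_REC)
open Pool.Agent.Q284.PX
open Pool.Agent.Q277.PS (mem_PD)

section gen

variable {F : Type} [Field F] [Fintype F]

lemma cardMon (n : ℕ) : (Mon F n).card = Fintype.card F ^ n := by
  classical
  have e : {p : F[X] // p.Monic ∧ p.natDegree = n} ≃ (Fin n → F) :=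
    (monicEquivDegreeLT n).trans (degreeLTEquiv F n).toEquiv
  have h1 : (Mon F n).card = Nat.card {p : F[X] // p.Monic ∧ p.natDegree = n} := by
    have e2 : {p : F[X] // p.Monic ∧ p.natDegree = n} ≃ {p : F[X] // p ∈ Mon F n} :=
      Equiv.subtypeEquivRight fun p => mem_Mon.symm
    rw [Nat.card_congr e2, Nat.card_eq_fintype_card, Fintype.card_coe]
  rw [h1, Nat.card_congr e, Nat.card_eq_fintype_card]
  simp

open Classical in
lemma cardUB (hq : 2 ≤ qq F) (M : ℕ) :
    ((((range (M + 1)).biUnion (Mon F)).card : ℕ) : ℝ) ≤ 2 * qq F ^ M := by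
  have h1 : ((range (M + 1)).biUnion (Mon F)).card ≤ ∑ m ∈ range (M + 1), (Mon F m).card :=
    card_biUnion_le
  have h2 : (((∑ m ∈ range (M + 1), (Mon F m).card : ℕ)) : ℝ) ≤ 2 * qq F ^ M := by
    push_cast
    have h3 : ∀ m, ((Mon F m).card : ℝ) = qq F ^ m := by
      intro m
      rw [cardMon]
      unfold qq
      push_cast
      ring
    simp_rw [h3]
    clear h1 h3
    induction M with
    | zero => simp
    | succ M ih =>
        rw [sum_range_succ, pow_succ]
        have h4 : 0 ≤ qq F ^ M := by positivity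
        have h5 : 2 * qq F ^ M ≤ qq F ^ M * qq F := by nlinarith
        linarith
  exact le_trans (by exact_mod_cast h1) h2

/-- the power of four -/
lemma four_le {q : ℝ} (hq : 3 ≤ q) {d j k : ℕ} (hd : 1 ≤ d) (h : 9 * d * k ≤ 20 * j) :
    (4:ℝ) ^ k ≤ q ^ (3 * (j:ℝ) / d) := by
  have hdp : (0:ℝ) < d := by exact_mod_cast hd
  have h1 : (4:ℝ) ≤ (3:ℝ) ^ ((27:ℝ) / 20) := by
    have h2 : (4:ℝ) = ((4:ℝ) ^ (20:ℕ)) ^ ((1:ℝ) / 20) := by
      rw [← Real.rpow_natCast, ← Real.rpow_mul (by norm_num)]
      norm_num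
    have h3 : (3:ℝ) ^ ((27:ℝ) / 20) = ((3:ℝ) ^ (27:ℕ)) ^ ((1:ℝ) / 20) := by
      rw [← Real.rpow_natCast, ← Real.rpow_mul (by norm_num)]
      norm_num
    rw [h3]
    conv_lhs => rw [h2]
    apply Real.rpow_le_rpow (by positivity) (by norm_num) (by norm_num)
  have h4 : (4:ℝ) ^ k ≤ (3:ℝ) ^ ((27:ℝ) / 20 * k) := by
    rw [Real.rpow_mul (by norm_num), Real.rpow_natCast]
    exact pow_le_pow_left₀ (by norm_num) h1 k
  have h5 : (27:ℝ) / 20 * k ≤ 3 * (j:ℝ) / d := by
    rw [le_div_iff₀ hdp]
    have h6 : (9:ℝ) * d * k ≤ 20 * j := by exact_mod_cast h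
    nlinarith
  have h7 : (0:ℝ) ≤ 3 * (j:ℝ) / d := by positivity
  calc (4:ℝ) ^ k ≤ (3:ℝ) ^ ((27:ℝ) / 20 * k) := h4
    _ ≤ (3:ℝ) ^ (3 * (j:ℝ) / d) := Real.rpow_le_rpow_of_exponent_le (by norm_num) h5
    _ ≤ q ^ (3 * (j:ℝ) / d) := Real.rpow_le_rpow (by norm_num) hq h7

/-- the bound for the prime powers -/
lemma Zbound {d K : ℕ} (hd : 1 ≤ d) (hK : 100 ≤ K) (hKd : K ≤ d) (hq : 3 ≤ qq F)
    {w : F[X] → ℕ → ℝ} {c : ℝ}
    (hz : ∀ (P : F[X]) (k : ℕ), 1 ≤ k → k < K → w P k = 0)
    (h4 : ∀ (P : F[X]) (k : ℕ), |w P k| ≤ 4 ^ k * qq F ^ ((1 - c) * ((k : ℝ) * P.natDegree)))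
    (h1 : ∀ (P : F[X]) (k : ℕ), 1 ≤ P.natDegree → 20 * P.natDegree < 9 * d →
      |w P k| ≤ qq F ^ ((1 - c) * ((k : ℝ) * P.natDegree))) {j : ℕ} (hj : 1 ≤ j) :
    ∑ P ∈ PD F j, |w P (j / P.natDegree)| ≤ 2 * qq F ^ ((1 - c + 4 / K) * j) ∧
    (j < K → ∑ P ∈ PD F j, |w P (j / P.natDegree)| = 0) := by
  classical
  have hqp : 0 < qq F := by linarith
  have hKp : (0:ℝ) < K := by exact_mod_cast (by omega : 0 < K)
  have hKd' : (K:ℝ) ≤ d := by exact_mod_cast hKd
  have hdp : (0:ℝ) < d := by linarith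
  have hj0 : (0:ℝ) ≤ j := Nat.cast_nonneg j
  have hP : ∀ P ∈ PD F j, 1 ≤ P.natDegree ∧ j / P.natDegree * P.natDegree = j ∧
      1 ≤ j / P.natDegree := by
    intro P hP
    rw [mem_PD] at hP
    obtain ⟨h2, h3, h5, h6⟩ := hP
    have h7 : 1 ≤ P.natDegree := h5.natDegree_pos
    exact ⟨h7, Nat.div_mul_cancel h6, Nat.div_pos h3 h7⟩
  constructor
  · obtain ⟨U, hU⟩ : ∃ U, U = (range (j / K + 1)).biUnion (Mon F) := ⟨_, rfl⟩
    obtain ⟨T, hT⟩ : ∃ T, T = qq F ^ ((1 - c + 3 / K) * j) := ⟨_, rfl⟩
    have hTp : 0 ≤ T := by rw [hT]; positivity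
    have hterm : ∀ P ∈ PD F j, |w P (j / P.natDegree)| ≤ if P ∈ U then T else 0 := by
      intro P hPj
      obtain ⟨h2, h3, h5⟩ := hP P hPj
      by_cases hk : j / P.natDegree < K
      · rw [hz P _ h5 hk, abs_zero]
        split_ifs
        · exact hTp
        · exact le_rfl
      · have hmem : P ∈ U := by
          rw [hU, mem_biUnion]
          refine ⟨P.natDegree, ?_, ?_⟩
          · rw [mem_range, Nat.lt_succ_iff, Nat.le_div_iff_mul_le (by omega)]
            have : K * P.natDegree ≤ j / P.natDegree * P.natDegree :=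
              Nat.mul_le_mul_right _ (by omega)
            rw [h3] at this
            rw [mul_comm]
            exact this
          · rw [mem_PD] at hPj
            exact mem_Mon.2 ⟨hPj.1, rfl⟩
        rw [if_pos hmem]
        have hcast : ((j / P.natDegree : ℕ) : ℝ) * P.natDegree = j := by exact_mod_cast h3
        have e3 : (1 - c + 3 / (K:ℝ)) * j = (1 - c) * j + 3 * (j:ℝ) / K := by ring
        have h30 : 0 ≤ 3 * (j:ℝ) / K := by positivity
        by_cases hs : 20 * P.natDegree < 9 * d
        · refine (h1 P _ h2 hs).trans ?_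
          rw [hcast, hT]
          apply Real.rpow_le_rpow_of_exponent_le (by linarith)
          rw [e3]
          linarith
        · refine (h4 P _).trans ?_
          rw [hcast, hT, e3, Real.rpow_add hqp, mul_comm]
          apply mul_le_mul_of_nonneg_left _ (by positivity)
          refine (four_le (j := j) hq hd ?_).trans ?_
          · push Not at hs
            calc 9 * d * (j / P.natDegree) ≤ 20 * P.natDegree * (j / P.natDegree) :=
                  Nat.mul_le_mul_right _ hs
              _ = 20 * (j / P.natDegree * P.natDegree) := by ring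
              _ = 20 * j := by rw [h3]
              _ ≤ 20 * j := le_rfl
          · apply Real.rpow_le_rpow_of_exponent_le (by linarith)
            apply div_le_div_of_nonneg_left (by positivity) hKp hKd'
    calc ∑ P ∈ PD F j, |w P (j / P.natDegree)| ≤ ∑ P ∈ PD F j, if P ∈ U then T else 0 :=
          sum_le_sum hterm
      _ = (((PD F j).filter (fun P => P ∈ U)).card : ℝ) * T := by
          rw [← sum_filter, sum_const, nsmul_eq_mul]
      _ ≤ (U.card : ℝ) * T := by
          apply mul_le_mul_of_nonneg_right _ hTp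
          exact_mod_cast card_le_card (fun P hP => (mem_filter.1 hP).2)
      _ ≤ (2 * qq F ^ (j / K)) * T := by
          apply mul_le_mul_of_nonneg_right _ hTp
          rw [hU]
          exact cardUB (by linarith) _
      _ ≤ (2 * qq F ^ ((j:ℝ) / K)) * T := by
          apply mul_le_mul_of_nonneg_right _ hTp
          apply mul_le_mul_of_nonneg_left _ (by norm_num)
          rw [← Real.rpow_natCast]
          apply Real.rpow_le_rpow_of_exponent_le (by linarith)
          exact Nat.cast_div_le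
      _ = 2 * qq F ^ ((1 - c + 4 / K) * j) := by
          rw [hT, mul_assoc, ← Real.rpow_add hqp]
          congr 2
          ring
  · intro hjK
    apply sum_eq_zero
    intro P hPj
    obtain ⟨h2, h3, h5⟩ := hP P hPj
    rw [hz P _ h5 (lt_of_le_of_lt (Nat.div_le_self _ _) hjK), abs_zero]

end gen

/-- the sum of the induction -/
lemma sumb {d K : ℕ} (hL : 4 ≤ Real.log d) (hK : 100 ≤ K) (hKd : K ≤ d) {q : ℝ} (hq : 3 ≤ q)
    (u : ℕ) : ∑ j ∈ Icc K u, 2 * (j:ℝ) * q ^ (-(9 * Real.log d / K * j)) ≤ 1 := by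
  have hKp : (0:ℝ) < K := by exact_mod_cast (by omega : 0 < K)
  have hK1 : (1:ℝ) ≤ K := by exact_mod_cast (by omega : 1 ≤ K)
  have hKd' : (K:ℝ) ≤ d := by exact_mod_cast hKd
  have hdp : (0:ℝ) < d := by linarith
  have hg := geos hL hK hKd (Icc K u) u (by
    intro x hx
    rw [mem_Icc] at hx
    rw [mem_range]
    omega)
  obtain ⟨L, hLd⟩ : ∃ L, L = Real.log d := ⟨_, rfl⟩
  have hdL : (d:ℝ) = Real.exp L := by rw [hLd, Real.exp_log hdp]
  rw [← hLd] at hL hg ⊢
  have hterm : ∀ j ∈ Icc K u, 2 * (j:ℝ) * q ^ (-(9 * L / K * j)) ≤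
      2 * Real.exp (-(6 * L)) * Real.exp (-(L / K * j)) := by
    intro j hj
    rw [mem_Icc] at hj
    obtain ⟨x, hx⟩ : ∃ x : ℝ, x = j / K := ⟨_, rfl⟩
    have hux : (j:ℝ) = K * x := by rw [hx]; field_simp
    have hx1 : 1 ≤ x := by
      rw [hx, le_div_iff₀ hKp, one_mul]
      exact_mod_cast hj.1
    have e1 : 9 * L / K * j = 9 * L * x := by rw [hux]; field_simp
    have e2 : L / K * j = L * x := by rw [hux]; field_simp
    rw [e1, e2]
    have h2 : (j:ℝ) ≤ Real.exp L * Real.exp x := by
      have h3 : x ≤ Real.exp x := by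
        have := Real.add_one_le_exp x
        linarith
      rw [hux, ← hdL]
      exact mul_le_mul hKd' h3 (by linarith) (by linarith)
    have h4 : q ^ (-(9 * L * x)) ≤ Real.exp (-(9 * L * x)) := q_le_exp hq (by positivity)
    calc 2 * (j:ℝ) * q ^ (-(9 * L * x)) ≤
          2 * (Real.exp L * Real.exp x) * Real.exp (-(9 * L * x)) := by
          apply mul_le_mul (by linarith) h4
          · have : 0 < q := by linarith
            positivity
          · positivity
      _ = 2 * Real.exp (L + x + -(9 * L * x)) := by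
          rw [Real.exp_add, Real.exp_add]; ring
      _ ≤ 2 * Real.exp (-(6 * L) + -(L * x)) := by
          apply mul_le_mul_of_nonneg_left _ (by norm_num)
          apply Real.exp_le_exp.2
          nlinarith
      _ = _ := by rw [Real.exp_add]; ring
  calc ∑ j ∈ Icc K u, 2 * (j:ℝ) * q ^ (-(9 * L / K * j)) ≤
        ∑ j ∈ Icc K u, 2 * Real.exp (-(6 * L)) * Real.exp (-(L / K * j)) := sum_le_sum hterm
    _ = 2 * Real.exp (-(6 * L)) * ∑ j ∈ Icc K u, Real.exp (-(L / K * j)) := by rw [mul_sum]
    _ ≤ 2 * Real.exp (-(6 * L)) * (2 * d) := mul_le_mul_of_nonneg_left hg (by positivity)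
    _ = 4 * Real.exp (-(5 * L)) := by
        rw [hdL]
        have : Real.exp (-(5 * L)) = Real.exp (-(6 * L)) * Real.exp L := by
          rw [← Real.exp_add]; congr 1; ring
        rw [this]; ring
    _ ≤ 1 := by
        have h1 : Real.exp (-(5 * L)) ≤ Real.exp (-(2:ℝ)) := Real.exp_le_exp.2 (by linarith)
        have h2 : Real.exp (-(2:ℝ)) ≤ 1 / 4 := by
          rw [Real.exp_neg, ← one_div]
          apply one_div_le_one_div_of_le (by norm_num)
          have h4 : Real.exp 2 = Real.exp 1 ^ 2 := by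
            rw [← Real.exp_nat_mul]; norm_num
          rw [h4]
          have := Real.exp_one_gt_d9
          nlinarith
        linarith

theorem t_MW : S_MW := by
  have hREC : S_REC := Pool.Agent.Q277.PS.t_REC
  refine ⟨100, fun d hd F _ _ hF K hK hKd w hw0 hz h4 h1 => ?_⟩
  have hL := logd hd
  have hq : 3 ≤ qq F := by
    unfold qq
    exact_mod_cast hF
  have hqp : 0 < qq F := by linarith
  have hKp : (0:ℝ) < K := by exact_mod_cast (by omega : 0 < K)
  have hKd' : (K:ℝ) ≤ d := by exact_mod_cast hKd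
  obtain ⟨hA1, hA2, hA3, hA4, -⟩ := Pool.Agent.Q237.PX.t_AFM F w hw0
  have hrec : ∀ n : ℕ, 1 ≤ n → (n:ℝ) * ∑ f ∈ Mon F n, |AF w f| ≤
      ∑ j ∈ Icc 1 n, (j : ℝ) * (∑ P ∈ PD F j, |w P (j / P.natDegree)|) *
        ∑ f ∈ Mon F (n - j), |AF w f| := by
    intro n hn
    refine (hREC F (fun f => |AF w f|) hA4 n hn).trans (le_of_eq ?_)
    apply sum_congr rfl
    intro j _
    congr 2
    apply sum_congr rfl
    intro P hP
    rw [mem_PD] at hP
    rw [hA3 P _ hP.1 hP.2.2.1]
  have hZ := fun j hj => Zbound (F := F) (j := j) (d := d) (K := K) (w := w)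
    (c := 40 * Real.log d / K) (by omega) hK hKd hq hz h4 h1 hj
  have hM0 : ∀ u, 0 ≤ ∑ f ∈ Mon F u, |AF w f| := fun u => sum_nonneg fun _ _ => abs_nonneg _
  have hbd : ∀ u : ℕ, ∑ f ∈ Mon F u, |AF w f| ≤ qq F ^ ((1 - 30 * Real.log d / K) * u) := by
    intro u
    induction u using Nat.strong_induction_on with
    | _ u ih =>
      rcases Nat.eq_zero_or_pos u with h0 | h0
      · subst h0
        classical
        rw [Pool.Agent.H341R2.Sharp.Mon_zero, sum_singleton, hA1]
        simp
      · have hup : (0:ℝ) < u := by exact_mod_cast h0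
        have hu1 : (1:ℝ) ≤ u := by exact_mod_cast h0
        have hr := hrec u h0
        have h5 : ∑ j ∈ Icc 1 u, (j : ℝ) * (∑ P ∈ PD F j, |w P (j / P.natDegree)|) *
            ∑ f ∈ Mon F (u - j), |AF w f| ≤
            ∑ j ∈ Icc K u, qq F ^ ((1 - 30 * Real.log d / K) * u) *
              (2 * (j:ℝ) * qq F ^ (-(9 * Real.log d / K * j))) := by
          have hsub : Icc K u ⊆ Icc 1 u := Icc_subset_Icc_left (by omega)
          rw [← sum_subset hsub]
          · apply sum_le_sum
            intro j hj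
            rw [mem_Icc] at hj
            have hj1 : 1 ≤ j := by omega
            have hjr : (0:ℝ) ≤ j := Nat.cast_nonneg j
            have e1 := (hZ j hj1).1
            have e2 := ih (u - j) (by omega)
            have e3 : ((u - j : ℕ) : ℝ) = u - j := by rw [Nat.cast_sub hj.2]
            rw [e3] at e2
            calc (j : ℝ) * (∑ P ∈ PD F j, |w P (j / P.natDegree)|) *
                  ∑ f ∈ Mon F (u - j), |AF w f| ≤
                  (j : ℝ) * (2 * qq F ^ ((1 - 40 * Real.log d / K + 4 / K) * j)) *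
                    qq F ^ ((1 - 30 * Real.log d / K) * (u - j)) := by
                  apply mul_le_mul (mul_le_mul_of_nonneg_left e1 hjr) e2 (hM0 _)
                  positivity
              _ = 2 * (j:ℝ) * qq F ^ ((1 - 40 * Real.log d / K + 4 / K) * j +
                    (1 - 30 * Real.log d / K) * (u - j)) := by
                  rw [Real.rpow_add hqp]; ring
              _ ≤ 2 * (j:ℝ) * qq F ^ ((1 - 30 * Real.log d / K) * u + -(9 * Real.log d / K * j)) := by
                  apply mul_le_mul_of_nonneg_left _ (by positivity)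
                  apply Real.rpow_le_rpow_of_exponent_le (by linarith)
                  have h6 : 4 / (K:ℝ) ≤ Real.log d / K := div_le_div_of_nonneg_right hL hKp.le
                  have h7 := mul_le_mul_of_nonneg_right h6 hjr
                  have h8 : (1 - 40 * Real.log d / K + 4 / K) * j +
                    (1 - 30 * Real.log d / K) * (u - j) = (1 - 30 * Real.log d / K) * u +
                      -(9 * Real.log d / K * j) + (4 / K * j - Real.log d / K * j) := by ring
                  linarith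
              _ = _ := by rw [Real.rpow_add hqp]; ring
          · intro j hj hj2
            rw [mem_Icc] at hj hj2
            rw [(hZ j hj.1).2 (by omega)]
            ring
        rw [← mul_sum] at h5
        have h6 := sumb hL hK hKd hq u
        have h7 : 0 ≤ qq F ^ ((1 - 30 * Real.log d / K) * u) := by positivity
        have h8 := mul_le_mul_of_nonneg_left h6 h7
        have h9 : ∑ f ∈ Mon F u, |AF w f| ≤ (u:ℝ) * ∑ f ∈ Mon F u, |AF w f| := by
          have := hM0 u
          nlinarith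
        linarith
  intro u
  refine ⟨hbd u, fun hu1 huK => ?_⟩
  have hr := hrec u hu1
  have h5 : ∑ j ∈ Icc 1 u, (j : ℝ) * (∑ P ∈ PD F j, |w P (j / P.natDegree)|) *
      ∑ f ∈ Mon F (u - j), |AF w f| = 0 := by
    apply sum_eq_zero
    intro j hj
    rw [mem_Icc] at hj
    rw [(hZ j hj.1).2 (by omega)]
    ring
  rw [h5] at hr
  have hup : (0:ℝ) < u := by exact_mod_cast hu1
  have := hM0 u
  nlinarith

end Pool.Agent.Q137.PX
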