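import Pool.Agent.Q137.PX.Kit

/-! Project PX3 of helper284: jobs NG and NE. -/

set_option autoImplicit false

open Finset Polynomial ComplexConjugate

namespace Pool.Agent.Q137.PX

open Pool.Agent.Q284.PS (BB)
open Pool.Agent.Q284.PX

/-- the small factor -/
noncomputable def EE (d K u : ℕ) : ℝ :=
  Real.exp (-(20 * Real.log d)) * Real.exp (-(Real.log d / K * u))

lemma EE_nn (d K u : ℕ) : 0 ≤ EE d K u := by unfold EE; positivity

lemma logd {d : ℕ} (hd : 100 ≤ d) : 4 ≤ Real.log d := by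
  have hdr : (100:ℝ) ≤ d := by exact_mod_cast hd
  rw [Real.le_log_iff_exp_le (by linarith)]
  have h4 : Real.exp 4 = Real.exp 1 ^ 4 := by
    rw [← Real.exp_nat_mul]; norm_num
  have h1 := Real.exp_one_lt_d9
  have h2 := Real.exp_pos 1
  rw [h4]
  calc Real.exp 1 ^ 4 ≤ 3 ^ 4 := pow_le_pow_left₀ h2.le (by linarith) 4
    _ ≤ d := by linarith

section

variable {d K : ℕ} {q : ℝ}

lemma caseB (hL : 4 ≤ Real.log d) (hK : 100 ≤ K) (hKd : K ≤ d) (hq : 3 ≤ q) {u i : ℕ}
    (hu : K ≤ u) (hi : 1 ≤ i) (h34 : 3 * (i + u) ≤ 4 * u) :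
    q ^ ((1 - 30 * Real.log d / K) * u) * w2 q d i * q ^ ((20 : ℝ) * ((i + u : ℕ) : ℝ) / (9 * d)) ≤
      w2 q d (i + u) * (8 * EE d K u) := by
  have hqp : 0 < q := by linarith
  have hKp : (0:ℝ) < K := by exact_mod_cast (by omega : 0 < K)
  have hKd' : (K:ℝ) ≤ d := by exact_mod_cast hKd
  have hdp : (0:ℝ) < d := by linarith
  have hip : (0:ℝ) < i := by exact_mod_cast hi
  have hip1 : (1:ℝ) ≤ i := by exact_mod_cast hi
  have hup : (0:ℝ) ≤ u := Nat.cast_nonneg u
  rw [w2sh hqp hi (30 * Real.log d / K)]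
  have h1 := expo hL hK hKd hq (u := u)
  have h2 : (20 : ℝ) * ((i + u : ℕ) : ℝ) / (9 * d) ≤ Real.log d / K * u := by
    have h3 : 3 * ((i + u : ℕ) : ℝ) ≤ 4 * u := by exact_mod_cast h34
    have h4 : (20 : ℝ) * ((i + u : ℕ) : ℝ) / (9 * d) ≤ 3 * u / d := by
      rw [div_le_div_iff₀ (by positivity) hdp]
      nlinarith [mul_nonneg hup hdp.le, mul_le_mul_of_nonneg_right h3 hdp.le]
    have h5 : 3 * (u:ℝ) / d ≤ 3 * u / K := div_le_div_of_nonneg_left (by positivity) hKp hKd'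
    have h6 : 3 * (u:ℝ) / K ≤ Real.log d / K * u := by
      rw [div_mul_eq_mul_div]
      apply div_le_div_of_nonneg_right _ hKp.le
      nlinarith
    linarith
  have h3 : q ^ (-((30 * Real.log d / K - 5 / (2 * (d:ℝ))) * u)) *
      q ^ ((20 : ℝ) * ((i + u : ℕ) : ℝ) / (9 * d)) ≤ q ^ (-(28 * Real.log d / K * u)) := by
    calc _ ≤ q ^ (-(29 * Real.log d / K * u)) * q ^ (Real.log d / K * u) := by
          apply mul_le_mul h1 _ (by positivity) (by positivity)
          exact Real.rpow_le_rpow_of_exponent_le (by linarith) h2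
      _ = _ := by
          rw [← Real.rpow_add hqp]
          congr 1
          ring
  have h4 : (((i + u : ℕ) : ℝ) / i) ^ ((5:ℝ) / 2) ≤ (1 + (u:ℝ)) ^ ((5:ℝ) / 2) := by
    refine Real.rpow_le_rpow (by positivity) ?_ (by norm_num)
    rw [div_le_iff₀ hip]
    push_cast
    nlinarith
  have h5 := keyb hL hK hKd hq hu
  have hw := w2_nn hqp d (i + u)
  calc w2 q d (i + u) * (q ^ (-((30 * Real.log d / K - 5 / (2 * (d:ℝ))) * u)) *
        (((i + u : ℕ) : ℝ) / i) ^ ((5:ℝ) / 2)) * q ^ ((20 : ℝ) * ((i + u : ℕ) : ℝ) / (9 * d)) =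
      w2 q d (i + u) * ((((i + u : ℕ) : ℝ) / i) ^ ((5:ℝ) / 2) *
        (q ^ (-((30 * Real.log d / K - 5 / (2 * (d:ℝ))) * u)) *
          q ^ ((20 : ℝ) * ((i + u : ℕ) : ℝ) / (9 * d)))) := by ring
    _ ≤ w2 q d (i + u) * ((1 + (u:ℝ)) ^ ((5:ℝ) / 2) * q ^ (-(28 * Real.log d / K * u))) := by
        apply mul_le_mul_of_nonneg_left _ hw
        exact mul_le_mul h4 h3 (by positivity) (by positivity)
    _ ≤ _ := mul_le_mul_of_nonneg_left h5 hw

lemma caseA (hL : 4 ≤ Real.log d) (hK : 100 ≤ K) (hKd : K ≤ d) (hq : 3 ≤ q) {u i : ℕ}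
    (hu : K ≤ u) (hi : 1 ≤ i) :
    q ^ ((1 - 30 * Real.log d / K) * u) * w2 q d i ≤ w2 q d (i + u) * (8 * EE d K u) := by
  have hqp : 0 < q := by linarith
  have hKp : (0:ℝ) < K := by exact_mod_cast (by omega : 0 < K)
  have hip : (0:ℝ) < i := by exact_mod_cast hi
  have hip1 : (1:ℝ) ≤ i := by exact_mod_cast hi
  have hup : (0:ℝ) ≤ u := Nat.cast_nonneg u
  rw [w2sh hqp hi (30 * Real.log d / K)]
  have h1 := expo hL hK hKd hq (u := u)
  have h3 : q ^ (-((30 * Real.log d / K - 5 / (2 * (d:ℝ))) * u)) ≤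
      q ^ (-(28 * Real.log d / K * u)) := by
    refine h1.trans (Real.rpow_le_rpow_of_exponent_le (by linarith) ?_)
    have : 28 * Real.log d / K * u ≤ 29 * Real.log d / K * u := by gcongr; norm_num
    linarith
  have h4 : (((i + u : ℕ) : ℝ) / i) ^ ((5:ℝ) / 2) ≤ (1 + (u:ℝ)) ^ ((5:ℝ) / 2) := by
    refine Real.rpow_le_rpow (by positivity) ?_ (by norm_num)
    rw [div_le_iff₀ hip]
    push_cast
    nlinarith
  have h5 := keyb hL hK hKd hq hu
  have hw := w2_nn hqp d (i + u)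
  calc w2 q d (i + u) * (q ^ (-((30 * Real.log d / K - 5 / (2 * (d:ℝ))) * u)) *
        (((i + u : ℕ) : ℝ) / i) ^ ((5:ℝ) / 2)) ≤
      w2 q d (i + u) * (q ^ (-(28 * Real.log d / K * u)) * (1 + (u:ℝ)) ^ ((5:ℝ) / 2)) := by
        apply mul_le_mul_of_nonneg_left _ hw
        exact mul_le_mul h3 h4 (by positivity) (by positivity)
    _ ≤ _ := by
        apply mul_le_mul_of_nonneg_left _ hw
        rw [mul_comm]
        exact h5

lemma caseC (hL : 4 ≤ Real.log d) (hK : 100 ≤ K) (hKd : K ≤ d) (hq : 3 ≤ q) {n : ℕ}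
    (hn : K ≤ n) :
    q ^ ((1 - 30 * Real.log d / K) * n) * q ^ ((20 : ℝ) * n / (9 * d)) ≤
      w2 q d n * (8 * EE d K n) := by
  have hqp : 0 < q := by linarith
  have hKp : (0:ℝ) < K := by exact_mod_cast (by omega : 0 < K)
  have hKd' : (K:ℝ) ≤ d := by exact_mod_cast hKd
  have hdp : (0:ℝ) < d := by linarith
  have hnp : (0:ℝ) ≤ n := Nat.cast_nonneg n
  rw [w2ze hqp (by omega) (30 * Real.log d / K)]
  have h1 := expo hL hK hKd hq (u := n)
  have h2 : (20 : ℝ) * n / (9 * d) ≤ Real.log d / K * n := by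
    have h4 : (20 : ℝ) * n / (9 * d) ≤ 3 * n / d := by
      rw [div_le_div_iff₀ (by positivity) hdp]
      nlinarith [mul_nonneg hnp hdp.le]
    have h5 : 3 * (n:ℝ) / d ≤ 3 * n / K := div_le_div_of_nonneg_left (by positivity) hKp hKd'
    have h6 : 3 * (n:ℝ) / K ≤ Real.log d / K * n := by
      rw [div_mul_eq_mul_div]
      apply div_le_div_of_nonneg_right _ hKp.le
      nlinarith
    linarith
  have h3 : q ^ (-((30 * Real.log d / K - 5 / (2 * (d:ℝ))) * n)) *
      q ^ ((20 : ℝ) * n / (9 * d)) ≤ q ^ (-(28 * Real.log d / K * n)) := by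
    calc _ ≤ q ^ (-(29 * Real.log d / K * n)) * q ^ (Real.log d / K * n) := by
          apply mul_le_mul h1 _ (by positivity) (by positivity)
          exact Real.rpow_le_rpow_of_exponent_le (by linarith) h2
      _ = _ := by
          rw [← Real.rpow_add hqp]
          congr 1
          ring
  have h4 : (n : ℝ) ^ ((5:ℝ) / 2) ≤ (1 + (n:ℝ)) ^ ((5:ℝ) / 2) :=
    Real.rpow_le_rpow hnp (by linarith) (by norm_num)
  have h5 := keyb hL hK hKd hq hn
  have hw := w2_nn hqp d n
  calc w2 q d n * (q ^ (-((30 * Real.log d / K - 5 / (2 * (d:ℝ))) * n)) * (n : ℝ) ^ ((5:ℝ) / 2)) *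
        q ^ ((20 : ℝ) * n / (9 * d)) =
      w2 q d n * ((n : ℝ) ^ ((5:ℝ) / 2) *
        (q ^ (-((30 * Real.log d / K - 5 / (2 * (d:ℝ))) * n)) * q ^ ((20 : ℝ) * n / (9 * d)))) := by
        ring
    _ ≤ w2 q d n * ((1 + (n:ℝ)) ^ ((5:ℝ) / 2) * q ^ (-(28 * Real.log d / K * n))) := by
        apply mul_le_mul_of_nonneg_left _ hw
        exact mul_le_mul h4 h3 (by positivity) (by positivity)
    _ ≤ _ := mul_le_mul_of_nonneg_left h5 hw

lemma sumE (hL : 4 ≤ Real.log d) (hK : 100 ≤ K) (hKd : K ≤ d) (n : ℕ) :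
    ∑ u ∈ Icc 1 n, 819200 * EE d K u ≤ 1 / 100 := by
  unfold EE
  rw [← mul_sum, ← mul_sum]
  have h1 := geos hL hK hKd (Icc 1 n) n (by
    intro u hu
    rw [mem_Icc] at hu
    rw [mem_range]; omega)
  have h2 := tiny hL (d := d) (by omega)
  have h3 : Real.exp (-(20 * Real.log d)) * ∑ u ∈ Icc 1 n, Real.exp (-(Real.log d / K * u)) ≤
      Real.exp (-(20 * Real.log d)) * (2 * d) := mul_le_mul_of_nonneg_left h1 (Real.exp_pos _).le
  linarith

end

lemma BB_pos : 0 < BB := by unfold BB; norm_num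

theorem t_NG : S_NG := by
  refine ⟨100, fun d hd q K hq hK hKd W G n hn hW0 hWz hWn hWb hG0 hG => ?_⟩
  have hL := logd hd
  have hqp : 0 < q := by linarith
  have hw := w2_nn hqp d n
  have hB := BB_pos
  have hrange : range (n + 1) = insert 0 (Icc 1 n) := by
    ext u
    rw [mem_range, mem_insert, mem_Icc]
    omega
  rw [hrange, sum_insert (by rw [mem_Icc]; omega), hW0, one_mul, Nat.sub_zero]
  have h0 := (hG n hn le_rfl).2
  have hterm : ∀ u ∈ Icc 1 n, W u * G (n - u) ≤ BB * w2 q d n * (819200 * EE d K u) := by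
    intro u hu
    rw [mem_Icc] at hu
    have hE := EE_nn d K u
    rcases lt_or_ge u K with huK | huK
    · rw [hWz u hu.1 huK, zero_mul]
      positivity
    rcases Nat.eq_or_lt_of_le hu.2 with hun | hun
    · subst hun
      rw [Nat.sub_self, hG0, mul_one]
      have h1 : q ^ ((1 - 30 * Real.log d / K) * (u:ℝ)) ≤
          q ^ ((1 - 30 * Real.log d / K) * u) * q ^ ((20 : ℝ) * u / (9 * d)) := by
        apply le_mul_of_one_le_right (by positivity)
        apply Real.one_le_rpow (by linarith)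
        positivity
      have h2 := caseC hL hK hKd hq huK
      have h3 : w2 q d u * (8 * EE d K u) = BB * w2 q d u * (204800 * EE d K u) := by
        unfold BB; ring
      have h4 : 0 ≤ BB * w2 q d u * EE d K u := by positivity
      calc W u ≤ _ := hWb u
        _ ≤ _ := h1
        _ ≤ _ := h2
        _ = _ := h3
        _ ≤ _ := by nlinarith
    · obtain ⟨i, hi⟩ : ∃ i, i = n - u := ⟨_, rfl⟩
      have hin : n = i + u := by omega
      rw [← hi]
      have hi1 : 1 ≤ i := by omega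
      obtain ⟨hg1, hg2⟩ := hG i hi1 (by omega)
      have h2 := caseA hL hK hKd hq huK hi1
      rw [← hin] at h2
      have h4 : 0 ≤ BB * w2 q d n * EE d K u := by positivity
      calc W u * G i ≤ q ^ ((1 - 30 * Real.log d / K) * (u:ℝ)) * (5 / 2 * BB * w2 q d i) :=
            mul_le_mul (hWb u) hg2 hg1 (by positivity)
        _ = 5 / 2 * BB * (q ^ ((1 - 30 * Real.log d / K) * (u:ℝ)) * w2 q d i) := by ring
        _ ≤ 5 / 2 * BB * (w2 q d n * (8 * EE d K u)) := mul_le_mul_of_nonneg_left h2 (by positivity)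
        _ ≤ _ := by nlinarith
  have hsum : ∑ u ∈ Icc 1 n, W u * G (n - u) ≤ BB * w2 q d n * (1 / 100) := by
    calc _ ≤ ∑ u ∈ Icc 1 n, BB * w2 q d n * (819200 * EE d K u) := sum_le_sum hterm
      _ = BB * w2 q d n * ∑ u ∈ Icc 1 n, 819200 * EE d K u := by rw [mul_sum]
      _ ≤ _ := mul_le_mul_of_nonneg_left (sumE hL hK hKd n) (by positivity)
  have h5 : 0 ≤ BB * w2 q d n := by positivity
  linarith

theorem t_NE : S_NE := by
  refine ⟨100, fun d hd q K hq hK hKd W Y n hn hWz hWn hWb hYn hY1 hY2 hY0 => ?_⟩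
  have hL := logd hd
  have hqp : 0 < q := by linarith
  have hw := w2_nn hqp d n
  have hB := BB_pos
  have hterm : ∀ u ∈ Icc 1 n, W u * Y (n - u) ≤ BB * w2 q d n * (819200 * EE d K u) := by
    intro u hu
    rw [mem_Icc] at hu
    have hE := EE_nn d K u
    rcases lt_or_ge u K with huK | huK
    · rw [hWz u hu.1 huK, zero_mul]
      positivity
    rcases Nat.eq_or_lt_of_le hu.2 with hun | hun
    · subst hun
      rw [Nat.sub_self]
      have h2 := caseC hL hK hKd hq huK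
      have h3 : w2 q d u * (8 * EE d K u) = BB * w2 q d u * (204800 * EE d K u) := by
        unfold BB; ring
      have h4 : 0 ≤ BB * w2 q d u * EE d K u := by positivity
      calc W u * Y 0 ≤ q ^ ((1 - 30 * Real.log d / K) * (u:ℝ)) * (2 * q ^ ((20 : ℝ) * u / (9 * d))) :=
            mul_le_mul (hWb u) hY0 (hYn 0) (by positivity)
        _ = 2 * (q ^ ((1 - 30 * Real.log d / K) * (u:ℝ)) * q ^ ((20 : ℝ) * u / (9 * d))) := by ring
        _ ≤ 2 * (w2 q d u * (8 * EE d K u)) := by linarith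
        _ = 2 * (BB * w2 q d u * (204800 * EE d K u)) := by rw [h3]
        _ ≤ _ := by nlinarith
    · obtain ⟨i, hi⟩ : ∃ i, i = n - u := ⟨_, rfl⟩
      have hin : n = i + u := by omega
      rw [← hi]
      have hi1 : 1 ≤ i := by omega
      have h4 : 0 ≤ BB * w2 q d n * EE d K u := by positivity
      by_cases h4i : n ≤ 4 * i
      · have h2 := caseA hL hK hKd hq huK hi1
        rw [← hin] at h2
        calc W u * Y i ≤ q ^ ((1 - 30 * Real.log d / K) * (u:ℝ)) * (2 * BB * w2 q d i) :=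
              mul_le_mul (hWb u) (hY1 i hi1 (by omega) h4i) (hYn i) (by positivity)
          _ = 2 * BB * (q ^ ((1 - 30 * Real.log d / K) * (u:ℝ)) * w2 q d i) := by ring
          _ ≤ 2 * BB * (w2 q d n * (8 * EE d K u)) := mul_le_mul_of_nonneg_left h2 (by positivity)
          _ ≤ _ := by nlinarith
      · have h2 := caseB hL hK hKd hq huK hi1 (by omega)
        rw [← hin] at h2
        calc W u * Y i ≤ q ^ ((1 - 30 * Real.log d / K) * (u:ℝ)) *
              (5 * q ^ ((20 : ℝ) * n / (9 * d)) * (BB * w2 q d i)) :=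
              mul_le_mul (hWb u) (hY2 i hi1 (by omega)) (hYn i) (by positivity)
          _ = 5 * BB * (q ^ ((1 - 30 * Real.log d / K) * (u:ℝ)) * w2 q d i *
                q ^ ((20 : ℝ) * n / (9 * d))) := by ring
          _ ≤ 5 * BB * (w2 q d n * (8 * EE d K u)) := mul_le_mul_of_nonneg_left h2 (by positivity)
          _ ≤ _ := by nlinarith
  calc _ ≤ ∑ u ∈ Icc 1 n, BB * w2 q d n * (819200 * EE d K u) := sum_le_sum hterm
    _ = BB * w2 q d n * ∑ u ∈ Icc 1 n, 819200 * EE d K u := by rw [mul_sum]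
    _ ≤ BB * w2 q d n * (1 / 100) := mul_le_mul_of_nonneg_left (sumE hL hK hKd n) (by positivity)
    _ = _ := by ring

end Pool.Agent.Q137.PX
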