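import Pool.Agent.Q284.PX.Stm3

/-! Project PX3 of helper284: job QUO. -/

set_option autoImplicit false

open Finset Polynomial ComplexConjugate

namespace Pool.Agent.Q137.PX

open Pool.Agent.Q284.PX

/-- the low part -/
noncomputable def lowp (K : ℕ) (v : ℕ → ℝ) (m : ℕ) : ℝ := if m < K then v m else 0

/-- the high part -/
noncomputable def hip (K : ℕ) (v : ℕ → ℝ) : ℕ → ℝ
  | k => v k - ∑ i : Fin k, hip K v i * lowp K v (k - i)
  termination_by k => k
  decreasing_by exact i.2

lemma hip_eq (K : ℕ) (v : ℕ → ℝ) (k : ℕ) :
    hip K v k = v k - ∑ i ∈ range k, hip K v i * lowp K v (k - i) := by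
  rw [hip, Finset.sum_range]

theorem t_QUO : S_QUO := by
  intro K v hK hv0 hv
  have hl0 : lowp K v 0 = 1 := by unfold lowp; rw [if_pos (by omega), hv0]
  have hw0 : hip K v 0 = 1 := by rw [hip_eq]; simp [hv0]
  have hwz : ∀ k : ℕ, 1 ≤ k → k < K → hip K v k = 0 := by
    intro k
    induction k using Nat.strong_induction_on with
    | _ k ih =>
      intro hk1 hkK
      rw [hip_eq]
      obtain ⟨m, rfl⟩ : ∃ m, k = m + 1 := ⟨k - 1, by omega⟩
      rw [sum_range_succ']
      have h1 : ∑ i ∈ range m, hip K v (i + 1) * lowp K v (m + 1 - (i + 1)) = 0 := by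
        apply sum_eq_zero
        intro i hi
        rw [mem_range] at hi
        rw [ih (i + 1) (by omega) (by omega) (by omega), zero_mul]
      rw [h1, hw0, zero_add, one_mul, Nat.sub_zero]
      unfold lowp
      rw [if_pos hkK, sub_self]
  refine ⟨hip K v, hw0, hwz, ?_, ?_, ?_⟩
  · intro k
    rw [sum_range_succ, Nat.sub_self, if_pos (by omega), hv0, mul_one]
    have h1 := hip_eq K v k
    unfold lowp at h1
    rw [h1]
    ring
  · intro hz k
    rw [hip_eq]
    have h1 : ∑ i ∈ range k, hip K v i * lowp K v (k - i) = 0 := by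
      apply sum_eq_zero
      intro i hi
      rw [mem_range] at hi
      have : lowp K v (k - i) = 0 := by
        unfold lowp
        split_ifs with h
        · exact hz _ (by omega) h
        · rfl
      rw [this, mul_zero]
    rw [h1, sub_zero]
  · intro ρ hρ hb k
    have hρ0 : 0 < ρ := by linarith
    induction k using Nat.strong_induction_on with
    | _ k ih =>
      rcases Nat.eq_zero_or_pos k with hk | hk
      · rw [hk, hw0]; simp
      rcases lt_or_ge k K with hkK | hkK
      · rw [hwz k hk hkK, abs_zero]
        positivity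
      rw [hip_eq]
      have h1 : |∑ i ∈ range k, hip K v i * lowp K v (k - i)| ≤ 1 / 100 * (4 ^ k / 3 * ρ ^ k) := by
        calc |∑ i ∈ range k, hip K v i * lowp K v (k - i)| ≤
              ∑ i ∈ range k, |hip K v i * lowp K v (k - i)| := abs_sum_le_sum_abs _ _
          _ ≤ ∑ i ∈ range k, (4 ^ i * ρ ^ k) * (1 / 100) := by
              apply sum_le_sum
              intro i hi
              rw [mem_range] at hi
              rw [abs_mul]
              apply mul_le_mul _ _ (abs_nonneg _) (by positivity)
              · refine (ih i hi).trans ?_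
                apply mul_le_mul_of_nonneg_left _ (by positivity)
                exact pow_le_pow_right₀ hρ hi.le
              · unfold lowp
                split_ifs with h
                · exact hv _ (by omega) h
                · rw [abs_zero]; norm_num
          _ = 1 / 100 * ((∑ i ∈ range k, (4:ℝ) ^ i) * ρ ^ k) := by
              rw [sum_mul, mul_sum]
              apply sum_congr rfl
              intro i _
              ring
          _ ≤ 1 / 100 * (4 ^ k / 3 * ρ ^ k) := by
              apply mul_le_mul_of_nonneg_left _ (by norm_num)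
              apply mul_le_mul_of_nonneg_right _ (by positivity)
              rw [geom_sum_eq (by norm_num)]
              have : (0:ℝ) < 4 ^ k := by positivity
              have e : (4:ℝ) - 1 = 3 := by norm_num
              rw [e]
              apply div_le_div_of_nonneg_right _ (by norm_num)
              linarith
      have h2 : (3:ℝ) ^ ((k:ℝ) / 64) ≤ (3 / 2) ^ k := by
        have h3 : (3:ℝ) ≤ (3 / 2) ^ (64:ℕ) := by norm_num
        calc (3:ℝ) ^ ((k:ℝ) / 64) ≤ ((3 / 2 : ℝ) ^ (64:ℕ)) ^ ((k:ℝ) / 64) :=
              Real.rpow_le_rpow (by norm_num) h3 (by positivity)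
          _ = (3 / 2) ^ k := by
              rw [← Real.rpow_natCast (3 / 2 : ℝ) 64, ← Real.rpow_mul (by norm_num),
                ← Real.rpow_natCast (3 / 2 : ℝ) k]
              congr 1
              push_cast
              ring
      have h4 : 2 * (3 / 2 : ℝ) ^ k ≤ 3 / 4 * 4 ^ k := by
        obtain ⟨m, rfl⟩ : ∃ m, k = m + 1 := ⟨k - 1, by omega⟩
        rw [pow_succ, pow_succ]
        have : (3 / 2 : ℝ) ^ m ≤ 4 ^ m := pow_le_pow_left₀ (by norm_num) (by norm_num) m
        linarith
      have h5 : |v k| ≤ 3 / 4 * 4 ^ k * ρ ^ k := by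
        refine (hb k hkK).trans ?_
        apply mul_le_mul_of_nonneg_right _ (by positivity)
        linarith
      have h6 : (0:ℝ) ≤ 4 ^ k * ρ ^ k := by positivity
      calc |v k - ∑ i ∈ range k, hip K v i * lowp K v (k - i)| ≤
            |v k| + |∑ i ∈ range k, hip K v i * lowp K v (k - i)| := abs_sub _ _
        _ ≤ 3 / 4 * 4 ^ k * ρ ^ k + 1 / 100 * (4 ^ k / 3 * ρ ^ k) := add_le_add h5 h1
        _ ≤ _ := by nlinarith

end Pool.Agent.Q137.PX
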